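import Pool.Agent.Work.MP_292d0f_iso.Final

/-!
# Voisin's anti-symmetrization conjecture for K3 surfaces with half twists

`A` is the category of covariant Chow motives of smooth projective complex varieties with rational
coefficients, `A'` the same with coefficients in `k = ℚ(√-3)` or `k = ℚ(√-1)`, `K` a projective K3
surface `S` with the decomposition `h S = 𝟙 ⊕ L ⊕ ⋯ ⊕ L ⊕ t ⊕ L²` of its motive. Let
`t_k = D.F.obj K.t` be a direct summand of `(a ⊗ e) ⊕ (b ⊗ f)`, where `a`, `b` are the parts of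
`h₁ (C)` and `e`, `f` the parts of `h₁ (E)` with two conjugate characters, `Sym² a ⊗ e` and
`Sym² b ⊗ f` are direct summands of motives of rationally connected threefolds (`HalfTwist`). This
holds for the isotrivial elliptic K3 surfaces `y² = x³ + p₁₂(t)` and `y² = x³ + p₈(t) x` (the
elliptic curve `E` has complex multiplication by `k`, the threefold is
`y² = x³ + ∏ ℓ_j(u) ^ a_j`, with lines `ℓ_j` tangent to a conic, of degree 12 in
`ℙ(1,1,1,4,6)`), so, by the theorems of Torelli, Deligne-Mostow and Huybrechts, for the K3 surfaces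
of Picard number `ρ ≥ 4` with `√-3` in `End_Hdg (T(S)_ℚ)` and for those of Picard number `ρ ≥ 12`
with `√-1` in `End_Hdg (T(S)_ℚ)`.

Then `w × w' = w' × w` for all zero-cycles `w`, `w'` of degree zero on `S` (Voisin 1996). If `a` and
`b` have dimension `m = d + 2` and determinants `L ⊗ f ^ d`, `L ⊗ e ^ d` (`T.Dim d`; `m` is the
number of distinct zeros of the polynomial minus 2, and `22 - ρ = 2 m` if `t_k = a ⊗ e ⊕ b ⊗ f`)
then the conjecture holds for `S` and
* (`m ≤ 10`) all `N` and `l ≤ N - 3`, all `N ≤ 4` and `l ≤ N - 2`;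
* (`m ≤ 7`, at most 9 zeros) all `N` and `l ≤ N - 2`, and `N = 2`, `l ≤ 1`;
* (`m ≤ 5`, at most 7 zeros) all `N` and all `l < N`.

`K.At n l` is the statement of the conjecture for `N = n + 1` and `l`.
-/

open CategoryTheory MonoidalCategory
open Pool.VAS

universe v u w v' u' w'

theorem Pool.Agent.Results.MP_292d0f_ag.IsotrivialK3.result
    {V : Type w} {A : Type u} [Category.{v} A] [MonoidalCategory A] [SymmetricCategory A]
    [Preadditive A] [MonoidalPreadditive A] [Linear ℚ A] [MonoidalLinear ℚ A]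
    (M : ChowMotives V A) (K : K3Motive M)
    {V' : Type w'} {A' : Type u'} [Category.{v'} A'] [MonoidalCategory A'] [SymmetricCategory A']
    [Preadditive A'] [MonoidalPreadditive A'] [Linear ℚ A'] [MonoidalLinear ℚ A']
    (M' : ChowMotives V' A') (D : Coefficients M M') (R : RatConn M')
    (T : HalfTwist M' R (D.F.obj K.t)) :
    K.Commute ∧
    (∀ d : ℕ, d ≤ 8 → T.Dim d → (∀ n l : ℕ, l + 2 ≤ n → K.At n l) ∧
      (∀ n l : ℕ, n ≤ 3 → l + 1 ≤ n → K.At n l)) ∧
    (∀ d : ℕ, d ≤ 5 → T.Dim d → (∀ n l : ℕ, l + 1 ≤ n → K.At n l) ∧ (∀ l : ℕ, l ≤ 1 → K.At 1 l)) ∧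
    (∀ d : ℕ, d ≤ 3 → T.Dim d → K.Q1) :=
  iso_main K D T
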