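import Pool.Agent.Work.MP_292d0f_va.FinalC

/-!
# Voisin's anti-symmetrization conjecture and the Kuga-Satake correspondence

Let `S` be a projective K3 surface with the decomposition `h S = 𝟙 ⊕ L ⊕ ⋯ ⊕ L ⊕ t ⊕ L²` of its
Chow motive. Suppose that the Kuga-Satake correspondence of `S` is algebraic (`KugaSatake K ω`) and
that homologically trivial endomorphisms of `tⁿ ⊗ L` are nilpotent (`Nilpotence`; this holds if the
motive of `S` is finite-dimensional). Then the conjecture holds for `S`, all `N ≥ 2` and all
`l < N`, and `CH_l (∧ⁿ t) = 0` for all `l ≤ n - 2`. `Regularity` is a known consequence of the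
semisimplicity of the category of homological motives of products of surfaces and abelian
varieties.
-/

open CategoryTheory MonoidalCategory
open Pool.VAS

universe v u w

theorem Pool.Agent.Results.MP_292d0f_ag.KugaSatake.result
    {V : Type w} {A : Type u} [Category.{v} A] [MonoidalCategory A] [SymmetricCategory A]
    [Preadditive A] [MonoidalPreadditive A] [Linear ℚ A] [MonoidalLinear ℚ A]
    (M : ChowMotives V A) (K : K3Motive M) (ω : A ⥤ ModuleCat.{0} ℚ) [ω.Monoidal] [ω.Additive]
    (X : KugaSatake K ω) (hN : X.Nilpotence) (hR : X.Regularity) : K.Q1 ∧ K.Vanishing :=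
  mainC X hN hR
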