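import Pool.Agent.Work.MP_292d0f_os.Final

/-!
# Voisin's anti-symmetrization conjecture: what one pair `(N, l)` implies

`A` is the category of covariant Chow motives of smooth projective complex varieties with rational
coefficients, `K` a projective K3 surface `S` with the decomposition
`h S = 𝟙 ⊕ L ⊕ ⋯ ⊕ L ⊕ t ⊕ L²` of its motive, `rho K` its Picard number (the number of the
summands `L`), and `K.At n l` is the statement of the conjecture for `S`, `N = n + 1` and `l`. `Fac K x c`:
the exterior power `∧ ^ x t` is a direct summand of `L ^ c ⊗ h Y` for some smooth projective `Y`.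
Let `l ≤ n` and `l ≤ rho K`.
* `K.At n l` holds if and only if `∧ ^ x t` is a direct summand of `L ^ (x - (n + 1 - l)) ⊗ h Y`
  for all `x` with `n + 1 - l ≤ x ≤ n + 2`.
* If `K.At n l` holds, then for all `x = q (n + 2) + s`, `s ≤ n + 2`, and
  `c = q (l + 1) + (s - (n + 1 - l))` (truncated subtraction) `∧ ^ x t` is a direct summand of
  `L ^ c ⊗ h Y`, and `K.At n' l'` holds for `n' + 2 = x` and all `l' < c`. For instance `K.At 0 0`
  (`a × b = b × a` for zero-cycles of degree zero) implies `K.At n' l'` for all `2 l' ≤ n'`.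
* If `∧ ^ (b + 1) t = 0`, `2 ≤ b ≤ rho K + 2`, then the whole conjecture for `S` is equivalent to
  `K.At (b - 2) (b - 2)`.
-/

open CategoryTheory MonoidalCategory
open Pool.Agent.Work.MP_c42eb9_num.Defs Pool.VAS Pool.VASO

universe v u w

theorem Pool.Agent.Results.MP_292d0f_ag.OneSlot.result
    {V : Type w} {A : Type u} [Category.{v} A] [MonoidalCategory A] [SymmetricCategory A]
    [Preadditive A] [MonoidalPreadditive A] [Linear ℚ A] [MonoidalLinear ℚ A]
    (M : ChowMotives V A) (K : K3Motive M) :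
    (∀ n l : ℕ, l ≤ n → l ≤ rho K →
      (K.At n l ↔ ∀ x, n + 1 - l ≤ x → x ≤ n + 2 → Fac K x (x - (n + 1 - l))) ∧
      (K.At n l →
        (∀ q s : ℕ, s ≤ n + 2 → Fac K (q * (n + 2) + s) (q * (l + 1) + (s - (n + 1 - l)))) ∧
        ∀ q s n' l' : ℕ, n' + 2 = q * (n + 2) + s → s ≤ n + 2 →
          l' < q * (l + 1) + (s - (n + 1 - l)) → K.At n' l')) ∧
    ∀ b : ℕ, 2 ≤ b → b ≤ rho K + 2 → alt K.t (b + 1) = 0 →
      (K.Q1 ↔ K.At (b - 2) (b - 2)) :=
  main M K
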