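import Pool.Agent.Work.MP_292d0f_va.Final

/-!
# Voisin's anti-symmetrization conjecture: equivalent forms

`A` is the category of covariant Chow motives of smooth projective complex varieties with rational
coefficients, `K` a projective K3 surface `S` with the decomposition
`h S = 𝟙 ⊕ L ⊕ ⋯ ⊕ L ⊕ t ⊕ L²` of its motive. The following are equivalent:
* `Q1`: the conjecture for `S`, all `N ≥ 2` and all `l < N`;
* `Q1Top`: the conjecture for `S`, all `N ≥ 2` and `l = N - 1` only;
* `Vanishing`: `CH_l (∧ⁿ t) = 0` for all `l ≤ n - 2`;
* `Coniveau`: for all `n ≥ 1`, `∧ⁿ t` is a direct summand of `L ^ (n - 1) ⊗ h Y` for some smooth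
  projective `Y`.

They pass to every K3 surface `S'` whose `t'` is a direct summand of `t` (for instance `S'` isogenous
to `S`, or dominated by `S`). For every additive functor `H` on `A` (for instance the Betti or the Hodge realization): these
statements imply `HomConiveau H`, the same as `Coniveau` modulo the kernel of `H`; the converse
holds if the endomorphisms of the powers of `t` which are killed by `H` are nilpotent (known if the
motive of `S` is finite-dimensional). If `H` is the Hodge realization (`CurveClasses`: Hodge classes
in the second homology are algebraic), they imply that all Hodge classes in `∧ⁿ H²_tr (S)` are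
algebraic.
-/

open CategoryTheory MonoidalCategory
open Pool.VAS

universe v u w v' u'

theorem Pool.Agent.Results.MP_292d0f_ag.StrongForm.result
    {V : Type w} {A : Type u} [Category.{v} A] [MonoidalCategory A] [SymmetricCategory A]
    [Preadditive A] [MonoidalPreadditive A] [Linear ℚ A] [MonoidalLinear ℚ A]
    (M : ChowMotives V A) (K : K3Motive M) :
    (K.Q1 ↔ K.Q1Top) ∧ (K.Q1 ↔ K.Vanishing) ∧ (K.Q1 ↔ K.Coniveau) ∧
    (∀ (K' : K3Motive M) (i : K'.t ⟶ K.t) (r : K.t ⟶ K'.t), i ≫ r = 𝟙 K'.t → K.Q1 → K'.Q1) ∧
    ∀ {C : Type u'} [Category.{v'} C] [Preadditive C] (H : A ⥤ C) [H.Additive],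
      (K.Q1 → K.HomConiveau H) ∧ (K.Nilp H → K.HomConiveau H → K.Q1) ∧
      (CurveClasses H M → K.Q1 → K.HodgeClasses H) :=
  main M K
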